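import Mathlib

/-!
# ACC on principal left ideals and on principal right ideals does not imply ACCP

We build a monoid `H` satisfying the ascending chain condition on principal left ideals and
the one on principal right ideals, but possessing a strictly ascending infinite chain of
principal two-sided ideals.

`H` is the disjoint union of `M = {a,c}^* x {b,d}^*` (a product of two free monoids), a set `Y`
on which `{a,c}^*` acts on the left and `{b,d}^*` acts on the right, and a zero.
The elements of `Y` are the normal forms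
`c^i x_n d^l`, `c^i a x_n d^l`, `c^i x_n b d^l` (with `i, l` natural numbers, `n` an integer)
for the relations
`a x_{n+1} b = x_n`, `x_{n+1} b b = c x_n b`, `a a x_{n+1} = a x_n d`, `a c = 1`, `d b = 1`.
-/

namespace Pool.Agent.Results.MP_c4d24c_al.OneSidedNotTwoSided

/-- The principal left ideal `H x`. -/
def leftIdeal {H : Type*} [Monoid H] (x : H) : Set H := {z | ∃ h : H, z = h * x}

/-- The principal right ideal `x H`. -/
def rightIdeal {H : Type*} [Monoid H] (x : H) : Set H := {z | ∃ h : H, z = x * h}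

/-- The principal two-sided ideal `H x H`. -/
def twoSidedIdeal {H : Type*} [Monoid H] (x : H) : Set H := {z | ∃ h k : H, z = h * x * k}

/-- Every ascending chain of principal left ideals is eventually constant. -/
def ACCPL (H : Type*) [Monoid H] : Prop :=
  ∀ x : ℕ → H, (∀ n, leftIdeal (x n) ⊆ leftIdeal (x (n + 1))) →
    ∃ N, ∀ n, N ≤ n → leftIdeal (x n) = leftIdeal (x N)

/-- Every ascending chain of principal right ideals is eventually constant. -/
def ACCPR (H : Type*) [Monoid H] : Prop :=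
  ∀ x : ℕ → H, (∀ n, rightIdeal (x n) ⊆ rightIdeal (x (n + 1))) →
    ∃ N, ∀ n, N ≤ n → rightIdeal (x n) = rightIdeal (x N)

/-- Every ascending chain of principal two-sided ideals is eventually constant. -/
def ACCP (H : Type*) [Monoid H] : Prop :=
  ∀ x : ℕ → H, (∀ n, twoSidedIdeal (x n) ⊆ twoSidedIdeal (x (n + 1))) →
    ∃ N, ∀ n, N ≤ n → twoSidedIdeal (x n) = twoSidedIdeal (x N)

/-- The elements of the biact: `X i n l` is `c^i x_n d^l`, `A i n l` is `c^i a x_n d^l` and
`B i n l` is `c^i x_n b d^l`. -/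
inductive Y : Type
  | X (i : ℕ) (n : ℤ) (l : ℕ) : Y
  | A (i : ℕ) (n : ℤ) (l : ℕ) : Y
  | B (i : ℕ) (n : ℤ) (l : ℕ) : Y

open Y

/-- Left multiplication by the letter `a`. -/
def actA : Y → Y
  | X (i + 1) n l => X i n l
  | X 0 n l => A 0 n l
  | A (i + 1) n l => A i n l
  | A 0 n l => A 0 (n - 1) (l + 1)
  | B (i + 1) n l => B i n l
  | B 0 n l => X 0 (n - 1) l

/-- Left multiplication by the letter `c`. -/
def actC : Y → Y
  | X i n l => X (i + 1) n l
  | A i n l => A (i + 1) n l
  | B i n l => B (i + 1) n l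

/-- Right multiplication by the letter `b`. -/
def actB : Y → Y
  | X i n (l + 1) => X i n l
  | X i n 0 => B i n 0
  | B i n (l + 1) => B i n l
  | B i n 0 => B (i + 1) (n - 1) 0
  | A i n (l + 1) => A i n l
  | A i n 0 => X i (n - 1) 0

/-- Right multiplication by the letter `d`. -/
def actD : Y → Y
  | X i n l => X i n (l + 1)
  | A i n l => A i n (l + 1)
  | B i n l => B i n (l + 1)

/-- Left letters: `true` is `a`, `false` is `c`. -/
def lAct1 (s : Bool) (y : Y) : Y := if s then actA y else actC y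

/-- Right letters: `true` is `b`, `false` is `d`. -/
def rAct1 (y : Y) (s : Bool) : Y := if s then actB y else actD y

/-- The left action of words. -/
def lAct (u : List Bool) (y : Y) : Y := u.foldr lAct1 y

/-- The right action of words. -/
def rAct (y : Y) (v : List Bool) : Y := v.foldl rAct1 y

theorem comm11 (s t : Bool) (y : Y) : rAct1 (lAct1 s y) t = lAct1 s (rAct1 y t) := by
  rcases y with ⟨_ | i, n, _ | l⟩ | ⟨_ | i, n, _ | l⟩ | ⟨_ | i, n, _ | l⟩ <;>
    cases s <;> cases t <;> rfl

theorem comm1 (s : Bool) (y : Y) (v : List Bool) : rAct (lAct1 s y) v = lAct1 s (rAct y v) := by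
  induction v generalizing y with
  | nil => rfl
  | cons t v ih =>
    show rAct (rAct1 (lAct1 s y) t) v = lAct1 s (rAct (rAct1 y t) v)
    rw [comm11, ih]

theorem comm (u : List Bool) (y : Y) (v : List Bool) : rAct (lAct u y) v = lAct u (rAct y v) := by
  induction u with
  | nil => rfl
  | cons s u ih =>
    show rAct (lAct1 s (lAct u y)) v = lAct1 s (lAct u (rAct y v))
    rw [comm1, ih]

theorem lAct_append (u u' : List Bool) (y : Y) : lAct (u ++ u') y = lAct u (lAct u' y) := by
  simp [lAct]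

theorem rAct_append (y : Y) (v v' : List Bool) : rAct y (v ++ v') = rAct (rAct y v) v' := by
  simp [rAct]

/-- The monoid. -/
inductive H : Type
  | m (u v : List Bool) : H
  | y (z : Y) : H
  | zero : H

/-- The multiplication of `H`. -/
def H.mul : H → H → H
  | H.m u v, H.m u' v' => H.m (u ++ u') (v ++ v')
  | H.m u _, H.y z => H.y (lAct u z)
  | H.y z, H.m _ v => H.y (rAct z v)
  | H.y _, H.y _ => H.zero
  | H.zero, _ => H.zero
  | H.m _ _, H.zero => H.zero
  | H.y _, H.zero => H.zero

instance : Monoid H where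
  mul := H.mul
  one := H.m [] []
  mul_assoc := by
    intro p q r
    show H.mul (H.mul p q) r = H.mul p (H.mul q r)
    rcases p with ⟨u, v⟩ | z | _ <;> rcases q with ⟨u', v'⟩ | z' | _ <;>
      rcases r with ⟨u'', v''⟩ | z'' | _ <;>
      simp [H.mul, lAct_append, rAct_append, comm]
  one_mul := by
    intro p
    show H.mul (H.m [] []) p = p
    rcases p with ⟨u, v⟩ | z | _ <;> simp [H.mul, lAct]
  mul_one := by
    intro p
    show H.mul p (H.m [] []) = p
    rcases p with ⟨u, v⟩ | z | _ <;> simp [H.mul, rAct]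

theorem mul_def (p q : H) : p * q = H.mul p q := rfl

/-! ### A criterion for the ascending chain conditions -/

theorem evConst {I : H → Set H} (φ : H → ℕ ×ₗ ℕ)
    (h1 : ∀ z z', I z ⊆ I z' → φ z' ≤ φ z)
    (h2 : ∀ z z', I z ⊆ I z' → φ z = φ z' → I z' ⊆ I z)
    (x : ℕ → H) (hx : ∀ n, I (x n) ⊆ I (x (n + 1))) :
    ∃ N, ∀ n, N ≤ n → I (x n) = I (x N) := by
  have hanti : Antitone (fun n => φ (x n)) := antitone_nat_of_succ_le fun n => h1 _ _ (hx n)
  obtain ⟨_, ⟨N, rfl⟩, hN⟩ := (wellFounded_lt (α := ℕ ×ₗ ℕ)).has_min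
    (Set.range fun n => φ (x n)) ⟨_, 0, rfl⟩
  have heq : ∀ n, N ≤ n → φ (x n) = φ (x N) := fun n hn =>
    le_antisymm (hanti hn) (not_lt.mp (hN _ ⟨n, rfl⟩))
  refine ⟨N, fun n hn => ?_⟩
  induction n, hn using Nat.le_induction with
  | base => rfl
  | succ n hn ih =>
    have h3 : φ (x n) = φ (x (n + 1)) := (heq n hn).trans (heq (n + 1) (by omega)).symm
    rw [← ih]
    exact Set.Subset.antisymm (h2 _ _ (hx n) h3) (hx n)

/-! ### Ranks for the left action -/

/-- The rank of an element of `Y` for left divisibility. -/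
def hL : Y → ℕ
  | B _ _ _ => 0
  | X _ _ _ => 1
  | A _ _ l => l + 2

/-- The rank of an element of `Y` for right divisibility. -/
def hR : Y → ℕ
  | A _ _ _ => 0
  | X _ _ _ => 1
  | B i _ _ => i + 2

theorem hL_step (s : Bool) (y : Y) :
    hL y ≤ hL (lAct1 s y) ∧ (hL (lAct1 s y) = hL y → ∃ t, lAct1 t (lAct1 s y) = y) := by
  rcases y with ⟨_ | i, n, _ | l⟩ | ⟨_ | i, n, _ | l⟩ | ⟨_ | i, n, _ | l⟩ <;> cases s <;>
    first
      | (refine ⟨?_, fun h => ?_⟩
         · simp [hL, lAct1, actA, actC]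
         · first
            | exact ⟨true, rfl⟩
            | exact ⟨false, rfl⟩
            | (exfalso; simp [hL, lAct1, actA] at h))

theorem hR_step (s : Bool) (y : Y) :
    hR y ≤ hR (rAct1 y s) ∧ (hR (rAct1 y s) = hR y → ∃ t, rAct1 (rAct1 y s) t = y) := by
  rcases y with ⟨_ | i, n, _ | l⟩ | ⟨_ | i, n, _ | l⟩ | ⟨_ | i, n, _ | l⟩ <;> cases s <;>
    first
      | (refine ⟨?_, fun h => ?_⟩
         · simp [hR, rAct1, actB, actD]
         · first
            | exact ⟨true, rfl⟩
            | exact ⟨false, rfl⟩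
            | (exfalso; simp [hR, rAct1, actB] at h))

theorem hL_word (u : List Bool) (y : Y) :
    hL y ≤ hL (lAct u y) ∧ (hL (lAct u y) = hL y → ∃ w, lAct w (lAct u y) = y) := by
  induction u with
  | nil => exact ⟨le_rfl, fun _ => ⟨[], rfl⟩⟩
  | cons s u ih =>
    obtain ⟨ih1, ih2⟩ := ih
    obtain ⟨st1, st2⟩ := hL_step s (lAct u y)
    have e : lAct (s :: u) y = lAct1 s (lAct u y) := rfl
    rw [e]
    refine ⟨ih1.trans st1, fun h => ?_⟩
    have h1 : hL (lAct u y) = hL y := le_antisymm (st1.trans h.le) ih1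
    obtain ⟨w, hw⟩ := ih2 h1
    obtain ⟨t, ht⟩ := st2 (h.trans h1.symm)
    refine ⟨w ++ [t], ?_⟩
    rw [lAct_append]
    show lAct w (lAct1 t (lAct1 s (lAct u y))) = y
    rw [ht, hw]

theorem hR_word (y : Y) (v : List Bool) :
    hR y ≤ hR (rAct y v) ∧ (hR (rAct y v) = hR y → ∃ w, rAct (rAct y v) w = y) := by
  induction v using List.reverseRecOn with
  | nil => exact ⟨le_rfl, fun _ => ⟨[], rfl⟩⟩
  | append_singleton v s ih =>
    obtain ⟨ih1, ih2⟩ := ih
    obtain ⟨st1, st2⟩ := hR_step s (rAct y v)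
    have e : rAct y (v ++ [s]) = rAct1 (rAct y v) s := by rw [rAct_append]; rfl
    rw [e]
    refine ⟨ih1.trans st1, fun h => ?_⟩
    have h1 : hR (rAct y v) = hR y := le_antisymm (st1.trans h.le) ih1
    obtain ⟨w, hw⟩ := ih2 h1
    obtain ⟨t, ht⟩ := st2 (h.trans h1.symm)
    refine ⟨[t] ++ w, ?_⟩
    rw [rAct_append]
    show rAct (rAct1 (rAct1 (rAct y v) s) t) w = y
    rw [ht, hw]

/-- The rank of an element of `H` for left divisibility. -/
def φL : H → ℕ ×ₗ ℕ
  | H.m u v => toLex (0, u.length + v.length)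
  | H.y z => toLex (1, hL z)
  | H.zero => toLex (2, 0)

/-- The rank of an element of `H` for right divisibility. -/
def φR : H → ℕ ×ₗ ℕ
  | H.m u v => toLex (0, u.length + v.length)
  | H.y z => toLex (1, hR z)
  | H.zero => toLex (2, 0)

theorem φL_mul (h z : H) : φL z ≤ φL (h * z) ∧ (φL (h * z) = φL z → ∃ k, z = k * (h * z)) := by
  rcases h with ⟨u, v⟩ | w | _ <;> rcases z with ⟨u', v'⟩ | z' | _
  · simp only [mul_def, H.mul, φL, List.length_append]
    refine ⟨?_, fun h => ?_⟩
    · rw [Prod.Lex.toLex_le_toLex]; right; exact ⟨rfl, by simp only; omega⟩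
    · have h' : (0, (u.length + u'.length + (v.length + v'.length))) =
          ((0, u'.length + v'.length) : ℕ × ℕ) := toLex.injective h
      have h'' : u.length + u'.length + (v.length + v'.length) = u'.length + v'.length :=
        congrArg Prod.snd h'
      have hu : u = [] := List.length_eq_zero_iff.mp (by omega)
      have hv : v = [] := List.length_eq_zero_iff.mp (by omega)
      subst hu; subst hv
      exact ⟨H.m [] [], by simp⟩
  · simp only [mul_def, H.mul, φL]
    obtain ⟨h1, h2⟩ := hL_word u z'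
    refine ⟨?_, fun h => ?_⟩
    · rw [Prod.Lex.toLex_le_toLex]; right; exact ⟨rfl, h1⟩
    · have h' : (1, hL (lAct u z')) = ((1, hL z') : ℕ × ℕ) := toLex.injective h
      obtain ⟨w, hw⟩ := h2 (congrArg Prod.snd h')
      exact ⟨H.m w [], by simp [hw]⟩
  · simp only [mul_def, H.mul, φL]
    exact ⟨le_rfl, fun _ => ⟨H.m [] [], by first | rfl | trivial⟩⟩
  · simp only [mul_def, H.mul, φL]
    refine ⟨?_, fun h => ?_⟩
    · rw [Prod.Lex.toLex_le_toLex]; left; simp
    · have h' : (1, hL (rAct w v')) = ((0, u'.length + v'.length) : ℕ × ℕ) := toLex.injective h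
      have := congrArg Prod.fst h'
      simp at this
  · simp only [mul_def, H.mul, φL]
    refine ⟨?_, fun h => ?_⟩
    · rw [Prod.Lex.toLex_le_toLex]; left; simp
    · have h' : (2, 0) = ((1, hL z') : ℕ × ℕ) := toLex.injective h
      have := congrArg Prod.fst h'
      simp at this
  · simp only [mul_def, H.mul, φL]
    exact ⟨le_rfl, fun _ => ⟨H.zero, by first | rfl | trivial⟩⟩
  · simp only [mul_def, H.mul, φL]
    refine ⟨?_, fun h => ?_⟩
    · rw [Prod.Lex.toLex_le_toLex]; left; simp
    · have h' : (2, 0) = ((0, u'.length + v'.length) : ℕ × ℕ) := toLex.injective h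
      have := congrArg Prod.fst h'
      simp at this
  · simp only [mul_def, H.mul, φL]
    refine ⟨?_, fun h => ?_⟩
    · rw [Prod.Lex.toLex_le_toLex]; left; simp
    · have h' : (2, 0) = ((1, hL z') : ℕ × ℕ) := toLex.injective h
      have := congrArg Prod.fst h'
      simp at this
  · simp only [mul_def, H.mul, φL]
    exact ⟨le_rfl, fun _ => ⟨H.zero, by first | rfl | trivial⟩⟩

theorem φR_mul (h z : H) : φR z ≤ φR (z * h) ∧ (φR (z * h) = φR z → ∃ k, z = (z * h) * k) := by
  rcases h with ⟨u, v⟩ | w | _ <;> rcases z with ⟨u', v'⟩ | z' | _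
  · simp only [mul_def, H.mul, φR, List.length_append]
    refine ⟨?_, fun h => ?_⟩
    · rw [Prod.Lex.toLex_le_toLex]; right; exact ⟨rfl, by simp only; omega⟩
    · have h' : (0, (u'.length + u.length + (v'.length + v.length))) =
          ((0, u'.length + v'.length) : ℕ × ℕ) := toLex.injective h
      have h'' : u'.length + u.length + (v'.length + v.length) = u'.length + v'.length :=
        congrArg Prod.snd h'
      have hu : u = [] := List.length_eq_zero_iff.mp (by omega)
      have hv : v = [] := List.length_eq_zero_iff.mp (by omega)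
      subst hu; subst hv
      exact ⟨H.m [] [], by simp⟩
  · simp only [mul_def, H.mul, φR]
    obtain ⟨h1, h2⟩ := hR_word z' v
    refine ⟨?_, fun h => ?_⟩
    · rw [Prod.Lex.toLex_le_toLex]; right; exact ⟨rfl, h1⟩
    · have h' : (1, hR (rAct z' v)) = ((1, hR z') : ℕ × ℕ) := toLex.injective h
      obtain ⟨w, hw⟩ := h2 (congrArg Prod.snd h')
      exact ⟨H.m [] w, by simp [hw]⟩
  · simp only [mul_def, H.mul, φR]
    exact ⟨le_rfl, fun _ => ⟨H.m [] [], by first | rfl | trivial⟩⟩
  · simp only [mul_def, H.mul, φR]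
    refine ⟨?_, fun h => ?_⟩
    · rw [Prod.Lex.toLex_le_toLex]; left; simp
    · have h' : (1, hR (lAct u' w)) = ((0, u'.length + v'.length) : ℕ × ℕ) := toLex.injective h
      have := congrArg Prod.fst h'
      simp at this
  · simp only [mul_def, H.mul, φR]
    refine ⟨?_, fun h => ?_⟩
    · rw [Prod.Lex.toLex_le_toLex]; left; simp
    · have h' : (2, 0) = ((1, hR z') : ℕ × ℕ) := toLex.injective h
      have := congrArg Prod.fst h'
      simp at this
  · simp only [mul_def, H.mul, φR]
    exact ⟨le_rfl, fun _ => ⟨H.zero, by first | rfl | trivial⟩⟩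
  · simp only [mul_def, H.mul, φR]
    refine ⟨?_, fun h => ?_⟩
    · rw [Prod.Lex.toLex_le_toLex]; left; simp
    · have h' : (2, 0) = ((0, u'.length + v'.length) : ℕ × ℕ) := toLex.injective h
      have := congrArg Prod.fst h'
      simp at this
  · simp only [mul_def, H.mul, φR]
    refine ⟨?_, fun h => ?_⟩
    · rw [Prod.Lex.toLex_le_toLex]; left; simp
    · have h' : (2, 0) = ((1, hR z') : ℕ × ℕ) := toLex.injective h
      have := congrArg Prod.fst h'
      simp at this
  · simp only [mul_def, H.mul, φR]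
    exact ⟨le_rfl, fun _ => ⟨H.zero, by first | rfl | trivial⟩⟩

theorem accpl : ACCPL H := by
  intro x hx
  refine evConst (I := leftIdeal) φL ?_ ?_ x hx
  · intro z z' h
    obtain ⟨k, hk⟩ := h ⟨1, (one_mul z).symm⟩
    rw [hk]
    exact (φL_mul k z').1
  · intro z z' h heq w hw
    obtain ⟨k, hk⟩ := h ⟨1, (one_mul z).symm⟩
    obtain ⟨g, rfl⟩ := hw
    rw [hk] at heq
    obtain ⟨k', hk'⟩ := (φL_mul k z').2 heq
    refine ⟨g * k', ?_⟩
    rw [hk, mul_assoc, ← hk']

theorem accpr : ACCPR H := by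
  intro x hx
  refine evConst (I := rightIdeal) φR ?_ ?_ x hx
  · intro z z' h
    obtain ⟨k, hk⟩ := h ⟨1, (mul_one z).symm⟩
    rw [hk]
    exact (φR_mul k z').1
  · intro z z' h heq w hw
    obtain ⟨k, hk⟩ := h ⟨1, (mul_one z).symm⟩
    obtain ⟨g, rfl⟩ := hw
    rw [hk] at heq
    obtain ⟨k', hk'⟩ := (φR_mul k z').2 heq
    refine ⟨k' * g, ?_⟩
    rw [hk, ← mul_assoc, ← hk']

/-! ### The two-sided chain -/

/-- The level of an element of `Y`. -/
def lev : Y → ℤ
  | X _ n _ => n
  | A _ n _ => n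
  | B _ n _ => n

theorem lev_l1 (s : Bool) (y : Y) : lev (lAct1 s y) ≤ lev y := by
  rcases y with ⟨_ | i, n, _ | l⟩ | ⟨_ | i, n, _ | l⟩ | ⟨_ | i, n, _ | l⟩ <;> cases s <;>
    simp [lev, lAct1, actA, actC]

theorem lev_r1 (s : Bool) (y : Y) : lev (rAct1 y s) ≤ lev y := by
  rcases y with ⟨_ | i, n, _ | l⟩ | ⟨_ | i, n, _ | l⟩ | ⟨_ | i, n, _ | l⟩ <;> cases s <;>
    simp [lev, rAct1, actB, actD]

theorem lev_l (u : List Bool) (y : Y) : lev (lAct u y) ≤ lev y := by
  induction u with
  | nil => exact le_rfl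
  | cons s u ih => exact (lev_l1 s (lAct u y)).trans ih

theorem lev_r (y : Y) (v : List Bool) : lev (rAct y v) ≤ lev y := by
  induction v generalizing y with
  | nil => exact le_rfl
  | cons s v ih => exact (ih (rAct1 y s)).trans (lev_r1 s y)

theorem not_accp : ¬ ACCP H := by
  intro hacc
  obtain ⟨N, hN⟩ := hacc (fun k => H.y (X 0 (k : ℤ) 0)) (by
    rintro k w ⟨p, q, rfl⟩
    refine ⟨p * H.m [true] [], H.m [] [true] * q, ?_⟩
    have key : H.y (X 0 (k : ℤ) 0) =
        H.m [true] [] * H.y (X 0 ((k + 1 : ℕ) : ℤ) 0) * H.m [] [true] := by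
      simp [mul_def, H.mul, lAct, rAct, lAct1, rAct1, actA, actB]
    show p * H.y (X 0 (k : ℤ) 0) * q = _
    rw [key]
    simp only [mul_assoc])
  have h1 : H.y (X 0 ((N + 1 : ℕ) : ℤ) 0) ∈ twoSidedIdeal (H.y (X 0 ((N : ℕ) : ℤ) 0)) := by
    rw [← hN (N + 1) (by omega)]
    exact ⟨1, 1, by simp⟩
  obtain ⟨p, q, hpq⟩ := h1
  rcases p with ⟨u, v⟩ | w | _ <;> rcases q with ⟨u', v'⟩ | w' | _ <;>
    simp [mul_def, H.mul] at hpq
  have h2 : lev (rAct (lAct u (X 0 (N : ℤ) 0)) v') ≤ lev (X 0 (N : ℤ) 0) :=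
    (lev_r _ _).trans (lev_l _ _)
  rw [← hpq] at h2
  simp [lev] at h2

/-- There is a monoid satisfying the ascending chain conditions on principal left ideals and on
principal right ideals, but not the one on principal two-sided ideals. -/
theorem result : ∃ (H : Type) (_ : Monoid H), ACCPL H ∧ ACCPR H ∧ ¬ ACCP H :=
  ⟨H, inferInstance, accpl, accpr, not_accp⟩

end Pool.Agent.Results.MP_c4d24c_al.OneSidedNotTwoSided
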